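import Pool.Agent.Lib.lead.CXGraphRed

namespace Pool.Agent.H.MP_f8c24f_lc

abbrev Vx := ℕ × ℕ

abbrev Inst := List (Vx × Vx) × List (Vx × Vx) × List (ℕ × ℕ)

def pt (v : Vx) : ℝ × ℝ := (v.1, v.2)

def Plane (E : List (Vx × Vx)) : Prop :=
  ∀ e ∈ E, ∀ e' ∈ E, pt e'.1 ∉ openSegment ℝ (pt e.1) (pt e.2) ∧ pt e'.2 ∉ openSegment ℝ (pt e.1) (pt e.2) ∧
    (s(e.1, e.2) ≠ s(e'.1, e'.2) → Disjoint (openSegment ℝ (pt e.1) (pt e.2)) (openSegment ℝ (pt e'.1) (pt e'.2)))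

def face (E : List (Vx × Vx)) (z : ℝ × ℝ) : Set (ℝ × ℝ) :=
  connectedComponentIn (⋃ e ∈ E, segment ℝ (pt e.1) (pt e.2))ᶜ z

def IsPath (E : List (Vx × Vx)) (t : Vx × Vx) (P : List Vx) : Prop :=
  P.head? = some t.1 ∧ P.getLast? = some t.2 ∧ P.Nodup ∧ P.IsChain fun u v => (u, v) ∈ E

def Valid (p : ℕ) (a : Inst) : Prop :=
  Plane a.1 ∧ (a.2.1.map Prod.fst ++ a.2.1.map Prod.snd).Nodup ∧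
    (∀ t ∈ a.2.1, (∃ e ∈ a.1, e.1 = t.1) ∧ ∃ e ∈ a.1, e.2 = t.2) ∧
    a.2.2.Nodup ∧ (∀ q ∈ a.2.2, q.1 < q.2 ∧ q.2 < a.2.1.length) ∧
    ∃ Z : Finset (ℝ × ℝ), Z.card ≤ p ∧ ∀ t ∈ a.2.1,
      (∃ z ∈ Z, pt t.1 ∈ frontier (face a.1 z)) ∧ ∃ z ∈ Z, pt t.2 ∈ frontier (face a.1 z)

def Solvable (a : Inst) : Prop :=
  ∃ P : ℕ → List Vx, (∀ i (h : i < a.2.1.length), IsPath a.1 a.2.1[i] (P i)) ∧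
    ∀ q ∈ a.2.2, (P q.1).Disjoint (P q.2)

end Pool.Agent.H.MP_f8c24f_lc
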