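import Pool.Agent.H.MP_f8c24f_lc.Defs
import Pool.Agent.H.MP_f73e8c_lc.Core

namespace Pool.Agent.H.MP_f8c24f_lc
open Pool.Agent.H.MP_f73e8c_lc (oth)

def emb (L : ℕ) (v : ℕ × ℕ × ℕ) : Vx :=
  if v.2.2 < L then (L * L * v.1 + L * v.2.2, L * L * v.2.1 + v.2.2 * v.2.2) else (L * v.1 + 1, Nat.pair v.2.1 v.2.2)

theorem frac {Q a b : ℝ} {x y : ℕ} (ha : 0 ≤ a) (ha' : a < Q) (hb : 0 ≤ b) (hb' : b < Q) (h : Q * x + a = Q * y + b) :
    x = y ∧ a = b := by
  have h0 : 0 < Q := by linarith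
  have h1 : (x : ℝ) < y + 1 := by by_contra h2; nlinarith
  have h2 : (y : ℝ) < x + 1 := by by_contra h2; nlinarith
  have : x = y := by
    have h3 : x < y + 1 := by exact_mod_cast h1
    have h4 : y < x + 1 := by exact_mod_cast h2
    omega
  subst this; exact ⟨rfl, by linarith⟩

theorem pt_em {L x y m : ℕ} (h : m < L) : pt (emb L (x, y, m)) = ((L : ℝ) * L * x + L * m, (L : ℝ) * L * y + m * m) := by
  simp [pt, emb, h]

theorem rng {L m : ℕ} (h : m < L) : (0 : ℝ) ≤ L * m ∧ (L : ℝ) * m < L * L ∧ (0 : ℝ) ≤ m * m ∧ (m : ℝ) * m < L * L := by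
  have h1 : (m : ℝ) < L := by exact_mod_cast h
  have h2 : (0 : ℝ) ≤ m := by positivity
  exact ⟨by positivity, by nlinarith, by positivity, by nlinarith⟩

theorem em_inj {L : ℕ} (hL : 2 ≤ L) : Function.Injective (emb L) := by
  rintro ⟨x, y, m⟩ ⟨x', y', m'⟩ e
  have k : ∀ a b c : ℕ, L * L * a + L * b ≠ L * c + 1 := fun a b c h => by
    have : L ∣ 1 := (Nat.dvd_add_right (Dvd.intro c rfl)).1 (h ▸ ⟨L * a + b, by ring⟩)
    have := Nat.le_of_dvd one_pos this; omega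
  by_cases h : m < L <;> by_cases h' : m' < L
  · have e1 := congrArg pt e
    rw [pt_em h, pt_em h', Prod.mk.injEq] at e1
    obtain ⟨a1, a2, a3, a4⟩ := rng h
    obtain ⟨b1, b2, b3, b4⟩ := rng h'
    obtain ⟨rfl, h1⟩ := frac a1 a2 b1 b2 e1.1
    obtain ⟨rfl, -⟩ := frac a3 a4 b3 b4 e1.2
    have : (0 : ℝ) < L := by positivity
    rw [show m = m' by exact_mod_cast mul_left_cancel₀ this.ne' h1]
  · simp only [emb, h, h', if_true, if_false, Prod.mk.injEq] at e; exact (k _ _ _ e.1).elim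
  · simp only [emb, h, h', if_true, if_false, Prod.mk.injEq] at e; exact (k _ _ _ e.1.symm).elim
  · simp only [emb, h, h', if_false, Prod.mk.injEq, Nat.pair_eq_pair, add_left_inj] at e
    rw [Nat.eq_of_mul_eq_mul_left (by omega) e.1, e.2.1, e.2.2]

noncomputable def dir (L k : ℕ) : ℝ × ℝ :=
  if k = 0 then (L * L, 0) else if k = 1 then (0, L * L) else (L * (k - 1 : ℕ), (k - 1 : ℕ) * (k - 1 : ℕ))

def Legal (L : ℕ) (e : Vx × Vx) : Prop :=
  ∃ x y k, k - 1 < L ∧ s(e.1, e.2) = s(emb L (x, y, 0), emb L (oth x y k))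

theorem comb {L x y k : ℕ} (h : k - 1 < L) (t : ℝ) : (1 - t) • pt (emb L (x, y, 0)) + t • pt (emb L (oth x y k)) =
    (L * L * x + t * (dir L k).1, L * L * y + t * (dir L k).2) := by
  have h0 : 0 < L := by omega
  unfold oth dir; split_ifs <;> simp only [pt_em h0, pt_em h] <;> ext <;> simp <;> ring

theorem seg {L} {e : Vx × Vx} {x y k} (hk : k - 1 < L) (h : s(e.1, e.2) = s(emb L (x, y, 0), emb L (oth x y k)))
    {p : ℝ × ℝ} (hp : p ∈ openSegment ℝ (pt e.1) (pt e.2)) :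
    ∃ t : ℝ, 0 < t ∧ t < 1 ∧ p = (L * L * x + t * (dir L k).1, L * L * y + t * (dir L k).2) := by
  have : p ∈ openSegment ℝ (pt (emb L (x, y, 0))) (pt (emb L (oth x y k))) := by
    rcases Sym2.eq_iff.1 h with ⟨h1, h2⟩ | ⟨h1, h2⟩
    · rwa [h1, h2] at hp
    · rwa [h1, h2, openSegment_symm] at hp
  rw [openSegment_eq_image] at this
  obtain ⟨t, ⟨h1, h2⟩, rfl⟩ := this
  exact ⟨t, h1, h2, comb hk t⟩

theorem dir_rng {L k : ℕ} (hk : k - 1 < L) {t : ℝ} (h : 0 < t) (h' : t < 1) :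
    0 ≤ t * (dir L k).1 ∧ t * (dir L k).1 < L * L ∧ 0 ≤ t * (dir L k).2 ∧ t * (dir L k).2 < L * L := by
  obtain ⟨a1, a2, a3, a4⟩ := rng hk
  have : (0 : ℝ) < L * L := by linarith
  unfold dir; split_ifs <;> refine ⟨by positivity, by simp only; nlinarith, by positivity, by simp only; nlinarith⟩

theorem not_mem {L e x' y' m} (he : Legal L e) (hm : m < L) : pt (emb L (x', y', m)) ∉ openSegment ℝ (pt e.1) (pt e.2) := by
  intro hw
  obtain ⟨x, y, k, hk, h⟩ := he
  obtain ⟨t, t0, t1, h1⟩ := seg hk h hw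
  rw [pt_em hm, Prod.mk.injEq] at h1
  obtain ⟨r1, r2, r3, r4⟩ := dir_rng hk t0 t1
  obtain ⟨a1, a2, a3, a4⟩ := rng hm
  have h3 := (frac a1 a2 r1 r2 h1.1).2
  have h4 := (frac a3 a4 r3 r4 h1.2).2
  have l0 : (0 : ℝ) < L := by have : 0 < L := by omega
                              positivity
  unfold dir at h3 h4
  split_ifs at h3 h4 with k0 k1 <;> simp only [mul_zero] at h3 h4
  · rw [mul_self_eq_zero.1 h4] at h3; have : 0 < t * (L * L) := by positivity
    linarith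
  · rw [(mul_eq_zero.1 h3).resolve_left l0.ne'] at h4; have : 0 < t * (L * L) := by positivity
    linarith
  · have k2 : (0 : ℝ) < (k - 1 : ℕ) := by have : 0 < k - 1 := by omega
                                          positivity
    have h5 : (m : ℝ) = t * (k - 1 : ℕ) := mul_left_cancel₀ l0.ne' (by linarith)
    rw [h5] at h4
    have : 0 < t * ((k - 1 : ℕ) * (k - 1 : ℕ)) * (1 - t) := by have := sub_pos.2 t1; positivity
    nlinarith

theorem ends {L e} (he : Legal L e) : (∃ x y m, m < L ∧ e.1 = emb L (x, y, m)) ∧ ∃ x y m, m < L ∧ e.2 = emb L (x, y, m) := by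
  obtain ⟨x, y, k, hk, h⟩ := he
  have : ∃ x' y' m, m < L ∧ oth x y k = (x', y', m) := by
    unfold oth; split_ifs <;> exact ⟨_, _, _, by omega, rfl⟩
  obtain ⟨x', y', m, h1, h2⟩ := this
  rcases Sym2.eq_iff.1 h with ⟨h3, h4⟩ | ⟨h3, h4⟩
  · exact ⟨⟨_, _, _, by omega, h3⟩, _, _, _, h1, h2 ▸ h4⟩
  · exact ⟨⟨_, _, _, h1, h2 ▸ h3⟩, _, _, _, by omega, h4⟩

theorem plane {L} {E : List (Vx × Vx)} (h : ∀ e ∈ E, Legal L e) : Plane E := by
  intro e he e' he'
  obtain ⟨⟨x1, y1, m1, a1, b1⟩, x2, y2, m2, a2, b2⟩ := ends (h e' he')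
  refine ⟨b1 ▸ not_mem (h e he) a1, b2 ▸ not_mem (h e he) a2, fun ne => Set.disjoint_left.2 fun p hp hp' => ne ?_⟩
  obtain ⟨x, y, k, c, hk⟩ := h e he
  obtain ⟨x', y', k', c', hk'⟩ := h e' he'
  obtain ⟨t, t0, t1, h1⟩ := seg c hk hp
  obtain ⟨u, u0, u1, h3⟩ := seg c' hk' hp'
  obtain ⟨r1, r2, r3, r4⟩ := dir_rng c t0 t1
  obtain ⟨s1, s2, s3, s4⟩ := dir_rng c' u0 u1
  have h5 := Prod.mk.inj (h1.symm.trans h3)
  obtain ⟨rfl, e1⟩ := frac r1 r2 s1 s2 h5.1
  obtain ⟨rfl, e2⟩ := frac r3 r4 s3 s4 h5.2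
  have l0 : (0 : ℝ) < L := by have : 0 < L := by omega
                              positivity
  have : k = k' := by
    have p : ∀ k : ℕ, k ≠ 0 → k ≠ 1 → (0 : ℝ) < (k - 1 : ℕ) := fun k _ _ => by
      have : 0 < k - 1 := by omega
      positivity
    unfold dir at e1 e2
    split_ifs at e1 e2 with a1 a2 a3 a4 a5 a6 a7 a8 <;> simp only [mul_zero] at e1 e2 <;>
      first | omega | exact absurd e1 (by positivity) | exact absurd e2 (by positivity) | skip
    · have := p k' a2 a3; exact absurd e2.symm (by positivity)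
    · have := p k' a5 a6; exact absurd e1.symm (by positivity)
    · have := p k a1 a4; exact absurd e2 (by positivity)
    · have := p k a1 a4; exact absurd e1 (by positivity)
    · have := p k a1 a4
      have e3 : t * (k - 1 : ℕ) = u * (k' - 1 : ℕ) := mul_left_cancel₀ l0.ne' (by linarith)
      have h6 : ((k - 1 : ℕ) : ℝ) = (k' - 1 : ℕ) := mul_left_cancel₀ (a := t * (k - 1 : ℕ)) (by positivity)
        (by linear_combination e2 - ((k' - 1 : ℕ) : ℝ) * e3)
      have : k - 1 = k' - 1 := by exact_mod_cast h6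
      omega
  rw [hk, hk', this]

noncomputable def gg (L x y : ℕ) (q : ℝ × ℝ) : ℝ × ℝ := (L * L * x + L * q.1, L * L * y + q.2 * (q.1 * q.1))

theorem tip {L x y m} {E : List (Vx × Vx)} (h : ∀ e ∈ E, Legal L e) (h0 : 0 < m) (hm : m < L)
    (hE : ∃ e ∈ E, e.1 = emb L (x, y, m) ∨ e.2 = emb L (x, y, m)) :
    pt (emb L (x, y, m)) ∈ frontier (face E (gg L x y (1, 1 / 2))) := by
  have c : Continuous (gg L x y) := by unfold gg; fun_prop
  have l1 : (1 : ℝ) < L := by have : 1 < L := by omega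
                              exact_mod_cast this
  have sub : gg L x y '' (Set.Ioo (0 : ℝ) L ×ˢ Set.Ioo (0 : ℝ) 1) ⊆ (⋃ e ∈ E, segment ℝ (pt e.1) (pt e.2))ᶜ := by
    rintro _ ⟨⟨a, s⟩, ⟨⟨a0, a1⟩, s0, s1⟩, rfl⟩ hp
    simp only [Set.mem_iUnion] at hp a0 a1 s0 s1
    obtain ⟨e, he, hp⟩ := hp
    have b1 : 0 < L * a := by positivity
    have b2 : L * a < L * L := by nlinarith
    have b3 : 0 < s * (a * a) := by positivity
    have b4 : s * (a * a) < a * a := by nlinarith [mul_pos a0 a0]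
    have b5 : s * (a * a) < L * L := by nlinarith
    have en : ∀ x' y' m', m' < L → gg L x y (a, s) ≠ pt (emb L (x', y', m')) := fun x' y' m' hm e => by
      rw [pt_em hm, gg, Prod.mk.injEq] at e
      obtain ⟨a1, a2, a3, a4⟩ := rng hm
      have h1 := (frac b1.le b2 a1 a2 e.1).2
      have h2 := (frac b3.le b5 a3 a4 e.2).2
      rw [← mul_left_cancel₀ (by positivity) h1] at h2
      linarith
    obtain ⟨⟨x1, y1, m1, a1, c1⟩, x2, y2, m2, a2, c2⟩ := ends (h e he)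
    obtain ⟨x', y', k, hk, h1⟩ := h e he
    obtain ⟨t, t0, t1, h2⟩ := seg hk h1 (mem_openSegment_of_ne_left_right (c1 ▸ (en _ _ _ a1).symm)
      (c2 ▸ (en _ _ _ a2).symm) hp)
    obtain ⟨r1, r2, r3, r4⟩ := dir_rng hk t0 t1
    rw [gg, Prod.mk.injEq] at h2
    have h3 := (frac b1.le b2 r1 r2 h2.1).2
    have h4 := (frac b3.le b5 r3 r4 h2.2).2
    unfold dir at h3 h4
    split_ifs at h3 h4 <;> simp only [mul_zero] at h3 h4
    · linarith
    · linarith
    · have h5 : a = t * (k - 1 : ℕ) := mul_left_cancel₀ (a := (L : ℝ)) (by positivity) (by linarith)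
      rw [h4, h5] at b4
      nlinarith [mul_nonneg (mul_nonneg t0.le (sub_pos.2 t1).le) (mul_self_nonneg ((k - 1 : ℕ) : ℝ))]
  have s2 : gg L x y '' (Set.Ioo (0 : ℝ) L ×ˢ Set.Ioo (0 : ℝ) 1) ⊆ face E (gg L x y (1, 1 / 2)) :=
    ((isPreconnected_Ioo.prod isPreconnected_Ioo).image _ c.continuousOn).subset_connectedComponentIn
      ⟨_, ⟨⟨one_pos, l1⟩, by norm_num, by norm_num⟩, rfl⟩ sub
  refine ⟨closure_mono s2 (image_closure_subset_closure_image c ⟨(m, 1), ?_, by simp [gg, pt_em hm]⟩), fun hi => ?_⟩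
  · rw [closure_prod_eq, closure_Ioo (by positivity), closure_Ioo (by norm_num)]
    exact ⟨⟨by positivity, Nat.cast_le.2 hm.le⟩, by norm_num, le_rfl⟩
  · refine connectedComponentIn_subset _ _ (interior_subset hi) ?_
    obtain ⟨e, he, h1⟩ := hE
    simp only [Set.mem_iUnion]
    refine ⟨e, he, ?_⟩
    rcases h1 with h1 | h1 <;> rw [← h1]
    exacts [left_mem_segment .., right_mem_segment ..]

end Pool.Agent.H.MP_f8c24f_lc
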